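import Pool.Agent.Q137.UO.AV

/-!
# The Tate conjecture for abelian varieties, and cubic hypersurfaces `T(x, y, z) = 1`

Let `k` be a field that is finitely generated over `ℚ` (with an embedding in `ℂ`), or a finite field. For a
trilinear form `T(x, y, z) = ∑ t_{ijl} x_i y_j z_l` with coefficients in `k`, in any numbers of variables
`x_1, …, x_a`, `y_1, …, y_b`, `z_1, …, z_c`, the affine cubic hypersurface `T(x, y, z) = 1` over `k` is
smooth.

**Theorem.** (1) For every `T` and every `n` there is an abelian variety `A_{T,n}` over `k` such that
`h^1(A_{T,n})` is the part of weight `2a - 1` of `H^n_c(T = 1)`, twisted by `a - 1`.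

(2) Every abelian variety over `k` is, up to isogeny, a direct factor of a finite product of abelian
varieties `A_{T,n}`. If `k` is a prime field, it is enough to take the forms `∑_{(i, j, l) ∈ H} x_i y_j z_l`
for finite sets `H` of triples.

(3) For every prime `l ≠ char k` and every `i` the Tate conjecture in codimension `i` is true for all abelian
varieties over `k` if and only if it is true for all finite products of the abelian varieties `A_{T,n}`.

Here `M` is the category of motives over `k` for absolute Hodge cycles (or for motivated cycles) in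
characteristic zero, and for numerical equivalence if `k` is finite (a semisimple abelian category, graded
by the weights, by Jannsen, Katz and Messing), with Tate twists `P ↦ P(t)`. For a separated scheme `X` of
finite type over `k` let `D.H N n X` be the part of weight `1 + 2N` of `H^n_c(X)` (the graded object of the
weight filtration; for a finite field it is defined by the weight complex of Gillet, Soulé and Bondarko);
for smooth projective `X` it is `h^n(X)` if `n = 1 + 2N`, and zero otherwise. For an abelian variety `A` over
`k` let `h1 A` be its motive `h^1(A)`; `h1` is a fully faithful contravariant functor on the category of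
abelian varieties over `k` up to isogeny. So `h1 A` is a direct factor of `h1 B` if and only if `A` is, up to
isogeny, a direct factor of `B`, and `OfForms1 D h1 A` says that `A` is isogenous to a finite product of
abelian varieties `A_{T,n}`.

`Describes` lists the known facts that are used: the standard properties of the motives and of the
cohomology with compact supports (`IsWMotives`), the relation between abelian varieties and motives of
weight one (`IsAV`), and the fact that the Tate conjecture in codimension `i` for `B` implies the one for
every direct factor of `B` up to isogeny (restrict cycles to the factor).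
-/

set_option autoImplicit false

open CategoryTheory CategoryTheory.Limits AlgebraicGeometry Pool.Agent.Y116.UV Pool.Agent.Z125.UN
  Pool.Agent.Q193.LT Pool.Agent.Q49.WU Pool.Agent.Q137.UO

universe v u w w'

namespace Pool.Agent.Results.MP_7b53ad_ag.CubicAbelianVarieties

/-- The Tate classes and the span of the algebraic classes on the abelian varieties over a field. -/
structure Classes (𝒜 : Type w) where
  /-- the cohomology `H^{2i}_l(A)(i)` -/
  V : ∀ (_ : 𝒜) (l : ℕ) [Fact l.Prime] (_ : ℕ), ModuleCat.{w'} ℚ_[l]
  /-- the Tate classes -/
  tate : ∀ (A : 𝒜) (l : ℕ) [Fact l.Prime] (i : ℕ), Submodule ℚ_[l] (V A l i)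
  /-- the span of the algebraic classes -/
  alg : ∀ (A : 𝒜) (l : ℕ) [Fact l.Prime] (i : ℕ), Submodule ℚ_[l] (V A l i)

/-- The Tate conjecture in codimension `i` for `A`. -/
def TateFor {𝒜 : Type w} (C : Classes.{w, w'} 𝒜) (l : ℕ) [Fact l.Prime] (i : ℕ) (A : 𝒜) : Prop :=
  C.tate A l i = C.alg A l i

/-- The known facts that are used. -/
structure Describes {k : Type} [Field k] {M : Type u} [Category.{v} M] [Abelian M] {𝒜 : Type w}
    (C : Classes.{w, w'} 𝒜) (D : WeightData k M) (h1 : 𝒜 → M) : Prop where
  motives : IsWMotives D
  varieties : IsAV D h1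
  factor : ∀ (l : ℕ) [Fact l.Prime] (i : ℕ) (A B : 𝒜), (l : k) ≠ 0 → IsFactor (h1 A) (h1 B) →
    TateFor C l i B → TateFor C l i A

/-- **The Tate conjecture for abelian varieties over a field.** See the explanations above. -/
theorem result {k : Type} [Field k] {M : Type u} [Category.{v} M] [Abelian M] {𝒜 : Type w}
    {C : Classes.{w, w'} 𝒜} {D : WeightData k M} {h1 : 𝒜 → M} (h : Describes C D h1) :
    (∀ (a b c : ℕ) (T : Fin a → Fin b → Fin c → k) (n : ℤ),
      ∃ A, Nonempty (h1 A ≅ formObj D T n)) ∧
    (∀ A : 𝒜, ∃ B, OfForms1 D h1 B ∧ IsFactor (h1 A) (h1 B)) ∧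
    (Frac k → ∀ A : 𝒜, ∃ B, OfGraphs1 D h1 B ∧ IsFactor (h1 A) (h1 B)) ∧
    (∀ (l : ℕ) [Fact l.Prime] (i : ℕ), (l : k) ≠ 0 →
      ((∀ A : 𝒜, TateFor C l i A) ↔ ∀ B : 𝒜, OfForms1 D h1 B → TateFor C l i B)) ∧
    (Frac k → ∀ (l : ℕ) [Fact l.Prime] (i : ℕ), (l : k) ≠ 0 →
      ((∀ A : 𝒜, TateFor C l i A) ↔ ∀ B : 𝒜, OfGraphs1 D h1 B → TateFor C l i B)) := by
  refine ⟨fun a b c T n => form_av h.motives h.varieties T n,
    fun A => factor_forms h.motives h.varieties A,
    fun hF A => factor_graphs h.motives h.varieties hF A, fun l _ i hl => ⟨fun g B _ => g B, ?_⟩,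
    fun hF l _ i hl => ⟨fun g B _ => g B, ?_⟩⟩
  · intro g A
    obtain ⟨B, hB, hAB⟩ := factor_forms h.motives h.varieties A
    exact h.factor l i A B hl hAB (g B hB)
  · intro g A
    obtain ⟨B, hB, hAB⟩ := factor_graphs h.motives h.varieties hF A
    exact h.factor l i A B hl hAB (g B hB)

end Pool.Agent.Results.MP_7b53ad_ag.CubicAbelianVarieties
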