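import Mathlib
import Pool.Agent.Q306.TP.Forces
import Pool.Agent.Q306.TP.AngleFam

/-!
# The Tate conjecture for abelian varieties over finitely generated fields whose reduction at one
place has simple factors of prime dimensions

Let `k₀` be a finitely generated field, `A` an abelian variety over `k₀` of any dimension and `γ` a
Frobenius element of the Galois group `Γ` of `k₀` at **one** place of good reduction, the residue field
having `q = p ^ a` elements. The characteristic polynomial of `γ` on `V = V_ℓ (A)` is the product of the
minimal polynomials of Weil numbers `π i` generating CM fields `F i`. We suppose that the reduction is
(up to isogeny) a product of geometrically simple abelian varieties which are not supersingular and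
whose dimensions are **odd prime numbers**, or whose fields `F i` have irreducible odd functions (for
instance elliptic curves, and the generic case in any dimension), in formulas (`IsSimpleWeil`):

* `π i` is not supersingular, and the functions `n` on the complex embeddings of `F i` with
  `n (conj φ) = - n φ` are an irreducible representation of the automorphisms of `ℂ`; or
* the degree of `F i` is `2 g` for an odd prime number `g`, all powers of `π i` generate `F i`, and either
  there is no Weil relation (`NoWeil`: no positive power of the norm of `π i` to an imaginary quadratic
  subfield of `F i` is a power of `q`; this is true if there is no such subfield), or the slopes are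
  `0`, `1 / 2`, `1` and the slope `0` has odd multiplicity (`HasOddRank`; this includes **all
  ordinary** `π i` (second part), and all those of K3 type).

No two of the fields `F i` have the same degree and the same normal closure, and no two of them contain
the same imaginary quadratic field (`IsDifferent`). The dimensions of the factors are then arbitrary, in
particular several factors may have the same dimension.

Let `M` be a representation of `Γ`, for instance the cohomology of a product `B_1 ^ r_1 × ... × B_t ^ r_t`
of abelian varieties, such that the eigenvalues of `γ` on `M` are roots of a rational polynomial all of
whose complex roots are products of algebraic numbers each of which is unrelated to all the fields `F i`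
(`UnrelatedTo`). By the third, fourth and fifth part, the following numbers are unrelated to `F i`:

* numbers with a rational power (supersingular eigenvalues);
* all elements of number fields `E` which have no imaginary quadratic subfield in common with `F i` and
  whose normal closure does not contain that of `F i`; and
* all elements of CM fields `E` of a degree smaller than that of `F i` which have no imaginary quadratic
  subfield in common with `F i`. So all abelian varieties `B` of a dimension smaller than those of the
  factors of the reduction of `A` are admitted if the imaginary quadratic subfields are different.

**Theorem** (`SplitsForProducts`, `ClassesSplit`). The classes in `H^j(A ^ r) ⊗ M` which are fixed by an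
open subgroup of `Γ` are zero for odd `j`, and linear combinations of products of `m` Tate classes of
degree two on `A ^ r` and of Tate classes in `M(-m)` for `j = 2 m`, for all `r`. As the Tate classes of
degree two are divisor classes (Tate, Zarhin, Faltings), this is, for `M` trivial, **the Tate conjecture
for all powers of `A`, in all codimensions and for all `ℓ`**, and the Tate conjecture for
`A ^ r × B_1 ^ r_1 × ... × B_t ^ r_t` follows from the one for `B_1 ^ r_1 × ... × B_t ^ r_t`.

For example, the Tate conjecture is true in all codimensions for all powers of `A × E_1 × ... × E_n`, for
an abelian variety `A` over a number field whose reduction at one place is isogenous to a product of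
ordinary geometrically simple abelian varieties with different prime dimensions `g_1, ..., g_m ≥ 3` and
without a common imaginary quadratic subfield, and elliptic curves `E_l` whose reductions have
endomorphism fields that are not contained in the fields of the factors: whatever the endomorphism
ring of `A` is, and although the Galois groups of the CM fields may be very small (as small as cyclic of
order `2 g_i`, where the odd functions on the embeddings are not irreducible if an imaginary quadratic
subfield exists).

Relation to the starting files and to the results of this team. Most theorems of the starting files and
of this team on the Tate classes over finitely generated fields need irreducible (most often absolutely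
irreducible) odd functions or slope conditions valid for almost all types; then a field of degree
greater than two contains no imaginary quadratic field. The starting file `OneFrobeniusTowers`
(MP_c1bb77_ag) and `TowerFrobenius` (MP_af4e75_ag, helper135) contain, for trivial `M`, the case of
ordinary `π i` in extensions `F i` of prime degree of imaginary quadratic fields, if all pairs of
embeddings of different fields are flipped by some automorphism. New here is the criterion for families of fields of degrees
`2 g`, `g` an odd prime, with and without imaginary quadratic subfields, by the degrees, the normal
closures and the imaginary quadratic subfields only (`angle_family`), not only for ordinary numbers, and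
the products with `M`, with the criteria for unrelated numbers. That products of unrelated numbers are
admissible on the side of `M` is a theorem of mine (`SmallRankTensorMotives`, MP_3703a7_ag), and the
linear algebra of the odd functions for prime `g` comes from my theorem `PrimeDimensions`
(MP_ee618e_ag), which treats abelian varieties over finite fields. Published: for **one simple**
abelian variety of odd prime dimension over a finite field the angle rank was determined by Tankeev and
Zarhin, and over number fields the Tate conjecture for simple abelian varieties of prime dimension is a
theorem of Tankeev, Ribet and Serre; families of several fields and products with arbitrary `B` are not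
in these papers.

The proof. Order the fields by the degree and the degree of the normal closure. The conjugates of the
`π k` of the fields `F k` below `F i` are unrelated to `F i`: the odd functions on the embeddings of
`F i` which are invariant under the automorphisms fixing all conjugates of `F k` form a subrepresentation
of the odd functions, and the only subrepresentations for an odd prime `g` are `0`, everything, and, if
there is an imaginary quadratic subfield, the line of its sign function and the orthogonal complement of
it (`prime_triC`). So the part of a relation in the highest field that occurs is itself a relation up
to a power, and it is trivial, as the relations form a subrepresentation again.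
-/

set_option autoImplicit false

namespace Pool.Agent.Results.MP_7b53ad_ag.PrimeReduction

open NumberField Module IntermediateField Pool.Agent.Y137.MV Pool.Agent.Y137.SL
  Pool.Agent.Y1.CT Pool.Agent.Q306.TP

/-- **The Tate classes on `A ^ r × B` for an abelian variety `A` over a finitely generated field whose
reduction at one place is a product of geometrically simple abelian varieties of odd prime dimensions
(first part), for instance ordinary ones (second part); `B` is, for instance, any product of abelian
varieties of smaller dimensions without common imaginary quadratic fields (last three parts).** -/
theorem result :
    (∀ (p : ℕ) [Fact p.Prime] (a : ℕ) (I : Type) [Fintype I] (F : I → Type)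
      [∀ i, Field (F i)] [∀ i, NumberField (F i)] [∀ i, IsCMField (F i)] (π : ∀ i, F i), 0 < a →
      (∀ i, ℚ⟮π i⟯ = ⊤) → (∀ i, π i * IsCMField.complexConj (F i) (π i) = (p : F i) ^ a) →
      (∀ i, IsSimpleWeil p a (π i)) → (∀ i k, i ≠ k → IsDifferent (F i) (F k)) →
      SplitsForProducts (p := p) a F π) ∧
    (∀ (p : ℕ) [Fact p.Prime] (a : ℕ) (K : Type) [Field K] [NumberField K] [IsCMField K] (π : K),
      0 < a → π * IsCMField.complexConj K π = (p : K) ^ a →
      (∃ g : ℕ, g.Prime ∧ g ≠ 2 ∧ finrank ℚ K = 2 * g) → (∀ s : ℕ, 0 < s → ℚ⟮π ^ s⟯ = ⊤) →
      (∀ τ : K →+* PadicAlgCl p, ‖τ π‖ = 1 ∨ ‖τ π‖ = ‖(p : PadicAlgCl p) ^ a‖) →
      IsSimpleWeil p a π) ∧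
    (∀ (K : Type) [Field K] [NumberField K] [IsCMField K] (y : ℂ) (N : ℕ) (r : ℚ), 0 < N →
      y ^ N = (r : ℂ) → UnrelatedTo K y) ∧
    (∀ (p : ℕ) [Fact p.Prime] (a : ℕ) (K : Type) [Field K] [NumberField K] [IsCMField K] (π : K),
      IsSimpleWeil p a π → ∀ (E : Type) [Field E] [NumberField E],
      ¬ normalClosure ℚ K ℂ ≤ normalClosure ℚ E ℂ → ¬ CommonImaginary K E →
      ∀ (φ : E →+* ℂ) (x : E), UnrelatedTo K (φ x)) ∧
    (∀ (p : ℕ) [Fact p.Prime] (a : ℕ) (K : Type) [Field K] [NumberField K] [IsCMField K] (π : K),
      IsSimpleWeil p a π → ∀ (E : Type) [Field E] [NumberField E] [IsCMField E],
      finrank ℚ E < finrank ℚ K → ¬ CommonImaginary K E →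
      ∀ (φ : E →+* ℂ) (x : E), UnrelatedTo K (φ x)) := by
  have hcast : ∀ (p a : ℕ) (K : Type) [Field K], ((p ^ a : ℕ) : K) = (p : K) ^ a :=
    fun p a K _ => by push_cast; rfl
  refine ⟨?_, ?_, ?_, ?_, ?_⟩
  · intro p _ a I _ F _ _ _ π ha hg hw hs hd
    exact split_of_products hg hw
      (angle_family ha (fun i => by rw [hcast]; exact hw i) hs hd)
  · intro p _ a K _ _ _ π ha hw hK hgen hord
    have hw' : π * IsCMField.complexConj K π = ((p ^ a : ℕ) : K) := by rw [hcast]; exact hw
    obtain ⟨g, hg, hodd, hfin⟩ := hK
    have h4 : ¬ 4 ∣ finrank ℚ K := by
      rintro ⟨m, hm⟩
      rcases hg.eq_two_or_odd with h | h
      · exact hodd h
      · omega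
    have hrk := oddRank_of_ordinary ha hw' h4 hord
    refine ⟨not_ss_of_oddRank ha hrk, Or.inr ⟨⟨g, hg, hodd, hfin⟩, hgen, Or.inr hrk⟩⟩
  · intro K _ _ _ y N r hN h
    exact unrelated_of_root hN h
  · intro p _ a K _ _ _ π h E _ _ hle hcom φ x
    exact unrelated_of_simple h hle hcom φ x
  · intro p _ a K _ _ _ π h E _ _ _ hdeg hcom φ x
    exact unrelated_of_simple_degree h hdeg hcom φ x

end Pool.Agent.Results.MP_7b53ad_ag.PrimeReduction
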