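import Mathlib
import Pool.Agent.Q70.MM.Three
import Pool.Agent.Q306.TP.Forces
import Pool.Agent.Q306.TP.Degree

/-!
# The Tate conjecture for abelian varieties over finitely generated fields with a place where the
reduction has several non-isogenous factors with the same CM field

Let `k₀` be a finitely generated field and `A` an abelian variety over `k₀`, of any dimension. Let `γ`
be a Frobenius element of the Galois group `Γ` of `k₀` at **one** place of good reduction, the residue
field having `q = p ^ a` elements. The theorems of the starting files, and those of this team, on the
Tate classes on `A ^ r` suppose that the simple factors of the reduction at this place which are not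
isogenous have different and unrelated CM fields. Here the characteristic polynomial of `γ` on the
Tate module `V = V_ℓ (A)` is the product of the minimal polynomials of Weil numbers `π c l` (`c` in a
finite set `C`, `l` in a finite set `J c`) where all `π c l`, `l` in `J c`, generate the **same** CM
field `K c`. We suppose:

* the functions `n` on the complex embeddings of `K c` with `n (conj φ) = - n φ` are an absolutely
  irreducible representation of the automorphisms of `ℂ` (`OddAbsolutelyIrreducible`; the generic
  case, it is true, for example, if the Galois group of the normal closure of `K c` consists of all
  permutations of the embeddings compatible with the complex conjugation, or if only some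
  automorphism exchanges one embedding with its complex conjugate and fixes all the others);
* there are no equivariant maps between these functions for `K c` and `K c'` if `c ≠ c'`
  (`Unrelated`);
* for each `c` the slopes of the numbers `π c l`, `l` in `J c`, as functions on the set of the embeddings
  of `K c` into the algebraic closure of `ℚ_p`, minus `1 / 2`, are linearly independent over `ℚ`
  (`IndependentSlopes`; first part), or (second part) all `π c l` are ordinary, no set `J c` has more
  than three elements, and for `l ≠ l'` the slopes of `π c l` and `π c l'` are neither equal nor
  opposite (`DifferentSlopes`: for ordinary numbers this means that the corresponding abelian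
  varieties over the residue field are not isogenous over any extension).

Let `M` be a representation of `Γ`, for instance the cohomology of another abelian variety `B`, or of
all products `B_1 × ... × B_t` of abelian varieties, or of any other variety over `k₀`, such that the
eigenvalues of `γ` on `M` are roots of a rational polynomial all of whose complex roots are products
`α_1 ... α_t` of algebraic numbers each of which is unrelated to all the fields `K c` (`UnrelatedTo`); by
the third part this is true for numbers `α_l` whose degree is smaller than `[K c : ℚ]`, and so for the
cohomology of **all products of powers of arbitrary abelian varieties `B_1, ..., B_t` with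
`2 dim B_l < [K c : ℚ]`** (any number of them).

**Theorem** (`SplitsForProducts`, `ClassesSplit`). The classes in `H^j(A ^ r) ⊗ M` which are fixed by an
open subgroup of `Γ` are zero for odd `j`, and linear combinations of products of `m` Tate classes of
degree two on `A ^ r` and of Tate classes in `M(-m)` for `j = 2 m`, for all `r`. As the Tate classes of
degree two are divisor classes (Tate, Zarhin, Faltings), this is, for `M` trivial, **the Tate conjecture
for all powers of `A`, in all codimensions and for all `ℓ`**, and in general the Tate conjecture for
`A ^ r × B_1 ^ r_1 × ... × B_t ^ r_t` follows from the one for `B_1 ^ r_1 × ... × B_t ^ r_t` (which is known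
if the `B_l` are elliptic curves, and in many other cases).

The abelian variety `A` may be simple; only its reduction at the one place splits. For example, let `K`
be a CM field of degree `2 g` whose normal closure has `2 ^ g g!` automorphisms, and let the reduction of
an abelian variety `A` of dimension `3 g` at a place of `k₀` be isogenous to the product of three
ordinary abelian varieties of dimension `g` with complex multiplication by `K` that are not isogenous
over extensions. Then the Tate conjecture holds for `A ^ r × B_1 × ... × B_t`, for all `r` and all
elliptic curves `B_l`, in all codimensions. The number three is optimal for `g = 3`: if `p` splits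
completely in `K` there are four pairs of conjugate ordinary types, with a linear relation between
the slopes.

Relation to the starting files and to the results of this team. The starting theorem
`AllCMTypesTimesSmooth` (MP_2a05c8_ag) is the theorem for the Weil numbers of almost all slope types,
one for each field. That products of unrelated numbers are admissible on the side of `M` is a theorem
of helper306 (`SmallRankTensorMotives`, MP_3703a7_ag), used here (`split_of_products`). New for this
problem: several Weil numbers in the same field (`angle_same`; it was applied to products with
varieties over finite fields in MP_950c68_ag, `ThreeTypesPerField`, helper70). Published: Lenstra and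
Zarhin, Zarhin, Dupuy, Kedlaya and Zureick-Brown treat the angle rank of a single simple abelian
variety over a finite field, and Zarhin uses one Frobenius element for abelian varieties of K3 type.

The proof. A relation between the conjugates of the `π c l` gives rational odd functions `n c l` on the
embeddings of `K c` such that `∑ c, ∑ l, ∑ x, n c l x * u c l (σ x) = 0` for all `σ` in the Galois
group, where `u c l` is the slope function minus `1 / 2`. Summing the square over `σ`, by Schur's
lemma for the invariant form `∑ σ, u c l (σ x) * u c' l' (σ y)`, which is zero for `c ≠ c'` or
`y ≠ x, conj x`, one obtains `∑ l, n c l x * u c l (σ x) = 0` for each single `x`, `c` and `σ`, that is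
a linear relation between the slope functions of the `π c l`, `l` in `J c`, with the coefficients
`n c l x`. So these are zero. For ordinary numbers the `u c l` are functions with two opposite values,
and three such functions, no two of which are equal or opposite, are linearly independent.
-/

set_option autoImplicit false

namespace Pool.Agent.Results.MP_7b53ad_ag.SeveralTypesPerField

open NumberField Module IntermediateField Pool.Agent.Y137.MV Pool.Agent.Y137.SL
  Pool.Agent.Y1.CT Pool.Agent.Q70.SQ Pool.Agent.Q70.MM Pool.Agent.Q306.TP

/-- **The Tate classes on `A ^ r × B` for an abelian variety `A` over a finitely generated field whose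
reduction at one place has absolutely irreducible CM fields, pairwise equal or unrelated, those with
the same field having linearly independent slopes (first part), for instance at most three
non-isogenous ordinary factors for each field (second part); `B` is, for instance, any product of
abelian varieties of smaller dimension (third part).** -/
theorem result :
    (∀ (p : ℕ) [Fact p.Prime] (a : ℕ) (C : Type) [Fintype C] (K : C → Type)
      [∀ c, Field (K c)] [∀ c, NumberField (K c)] [∀ c, IsCMField (K c)]
      (J : C → Type) [∀ c, Fintype (J c)] (π : ∀ c, J c → K c), 0 < a →
      (∀ c l, ℚ⟮π c l⟯ = ⊤) →
      (∀ c l, π c l * IsCMField.complexConj (K c) (π c l) = (p : K c) ^ a) →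
      (∀ c, OddAbsolutelyIrreducible (K c)) →
      (∀ c c', c ≠ c' → Pool.Agent.Y137.MV.Unrelated (K c) (K c')) →
      IndependentSlopes p a π →
      SplitsForProducts (p := p) a (fun i : Σ c, J c => K i.1) (fun i => π i.1 i.2)) ∧
    (∀ (p : ℕ) [Fact p.Prime] (a : ℕ) (C : Type) [Fintype C] (K : C → Type)
      [∀ c, Field (K c)] [∀ c, NumberField (K c)] [∀ c, IsCMField (K c)]
      (J : C → Type) [∀ c, Fintype (J c)] (π : ∀ c, J c → K c), 0 < a →
      (∀ c l, ℚ⟮π c l⟯ = ⊤) →
      (∀ c l, π c l * IsCMField.complexConj (K c) (π c l) = (p : K c) ^ a) →
      (∀ c, OddAbsolutelyIrreducible (K c)) →
      (∀ c c', c ≠ c' → Pool.Agent.Y137.MV.Unrelated (K c) (K c')) →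
      (∀ c, Fintype.card (J c) ≤ 3) → (∀ c l, IsOrdinary p a (π c l)) →
      (∀ c l l', l ≠ l' → DifferentSlopes p a (π c l) (π c l')) →
      SplitsForProducts (p := p) a (fun i : Σ c, J c => K i.1) (fun i => π i.1 i.2)) ∧
    (∀ (K : Type) [Field K] [NumberField K] [IsCMField K], OddAbsolutelyIrreducible K → ∀ α : ℂ,
      IsAlgebraic ℚ α → (minpoly ℚ α).natDegree < finrank ℚ K → UnrelatedTo K α) := by
  have hgen : ∀ (p : ℕ) [Fact p.Prime] (a : ℕ) (C : Type) [Fintype C] (K : C → Type)
      [∀ c, Field (K c)] [∀ c, NumberField (K c)] [∀ c, IsCMField (K c)]
      (J : C → Type) [∀ c, Fintype (J c)] (π : ∀ c, J c → K c), 0 < a →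
      (∀ c l, ℚ⟮π c l⟯ = ⊤) →
      (∀ c l, π c l * IsCMField.complexConj (K c) (π c l) = (p : K c) ^ a) →
      (∀ c, OddAbsolutelyIrreducible (K c)) →
      (∀ c c', c ≠ c' → Pool.Agent.Y137.MV.Unrelated (K c) (K c')) →
      IndependentSlopes p a π →
      SplitsForProducts (p := p) a (fun i : Σ c, J c => K i.1) (fun i => π i.1 i.2) := by
    intro p _ a C _ K _ _ _ J _ π ha hg hw habs hun hind
    exact split_of_products (F := fun i : Σ c, J c => K i.1) (fun i => hg i.1 i.2)
      (fun i => hw i.1 i.2) (angle_same π ha hw habs hun hind)
  refine ⟨hgen, ?_, ?_⟩
  · intro p _ a C _ K _ _ _ J _ π ha hg hw habs hun hcard hord hdiff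
    exact hgen p a C K J π ha hg hw habs hun (independent_of_three π ha hcard hord hdiff)
  · intro K _ _ _ hK α hα hd
    exact Pool.Agent.Q306.TP.unrelated_of_degree hK.1 hα hd

end Pool.Agent.Results.MP_7b53ad_ag.SeveralTypesPerField
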